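import Pool.Agent.K3h5.FF.Stm

/-! Brick GU of project FF (helper5): the Mallows permuton. -/

set_option autoImplicit false

open MeasureTheory Filter Topology ProbabilityTheory Set

namespace Pool.Agent.K3h49.FF

open Pool.Agent.K3h5.FF

theorem exp_cont (β : ℝ) : Continuous fun t : ℝ => Real.exp (-β * t) := by fun_prop

theorem g_deriv (β x : ℝ) : HasDerivAt (g β) (Real.exp (-β * x)) x :=
  intervalIntegral.integral_hasDerivAt_right ((exp_cont β).intervalIntegrable _ _)
    ((exp_cont β).stronglyMeasurableAtFilter _ _) (exp_cont β).continuousAt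

theorem g_cont (β : ℝ) : Continuous (g β) :=
  continuous_iff_continuousAt.2 fun x => (g_deriv β x).continuousAt

theorem g_zero (β : ℝ) : g β 0 = 0 := by simp [g]

theorem g_id (β x : ℝ) : 1 - β * g β x = Real.exp (-β * x) := by
  have h := intervalIntegral.integral_eq_sub_of_hasDerivAt (f := fun t => Real.exp (-β * t))
    (f' := fun t => -β * Real.exp (-β * t)) (a := 0) (b := x) (fun t _ => by
      have h1 := ((hasDerivAt_id t).const_mul (-β)).exp
      simp only [id_eq, mul_one] at h1
      rw [mul_comm] at h1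
      exact h1) (by
      refine Continuous.intervalIntegrable ?_ _ _
      fun_prop)
  rw [intervalIntegral.integral_const_mul] at h
  simp only [mul_zero, Real.exp_zero] at h
  unfold g
  linarith

theorem g_strictMono (β : ℝ) : StrictMono (g β) :=
  strictMono_of_deriv_pos fun x => by
    rw [(g_deriv β x).deriv]
    exact Real.exp_pos _

theorem g_inc (β x y : ℝ) (hx : 0 ≤ x) (hxy : x ≤ y) (hy : y ≤ 1) :
    Real.exp (-|β|) * (y - x) ≤ g β y - g β x := by
  have h1 : g β y - g β x = ∫ t in x..y, Real.exp (-β * t) := by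
    unfold g
    rw [intervalIntegral.integral_interval_sub_left ((exp_cont β).intervalIntegrable _ _)
      ((exp_cont β).intervalIntegrable _ _)]
  have h2 : ∫ _ in x..y, Real.exp (-|β|) = Real.exp (-|β|) * (y - x) := by
    rw [intervalIntegral.integral_const, smul_eq_mul, mul_comm]
  rw [h1, ← h2]
  refine intervalIntegral.integral_mono_on hxy intervalIntegrable_const
    ((exp_cont β).intervalIntegrable _ _) fun t ht => ?_
  rw [Real.exp_le_exp]
  have h3 : |β * t| ≤ |β| := by
    rw [abs_mul]
    have : |t| ≤ 1 := by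
      rw [abs_le]
      constructor <;> linarith [ht.1, ht.2]
    exact mul_le_of_le_one_right (abs_nonneg _) this
  have h4 := le_abs_self (β * t)
  linarith

theorem g_one_pos (β : ℝ) : 0 < g β 1 := by
  have := g_strictMono β zero_lt_one
  rwa [g_zero] at this

theorem g_nonneg (β : ℝ) {x : ℝ} (hx : 0 ≤ x) : 0 ≤ g β x := by
  have := (g_strictMono β).monotone hx
  rwa [g_zero] at this

theorem g_le (β : ℝ) {x : ℝ} (hx : x ≤ 1) : g β x ≤ g β 1 := (g_strictMono β).monotone hx

theorem D_pos (β : ℝ) {x y : ℝ} (hx : x ∈ Icc (0 : ℝ) 1) (hy : y ∈ Icc (0 : ℝ) 1) :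
    0 < g β 1 - β * g β x * g β y := by
  have h1 := g_one_pos β
  have h2 := g_nonneg β hx.1
  have h3 := g_nonneg β hy.1
  have h4 := g_le β hy.2
  rcases le_or_gt β 0 with hb | hb
  · have : β * g β x * g β y ≤ 0 :=
      mul_nonpos_of_nonpos_of_nonneg (mul_nonpos_of_nonpos_of_nonneg hb h2) h3
    linarith
  · have h5 := g_id β x
    have h6 := Real.exp_pos (-β * x)
    have h7 : β * g β x * g β y ≤ β * g β x * g β 1 :=
      mul_le_mul_of_nonneg_left h4 (mul_nonneg hb.le h2)
    have h8 : β * g β x * g β 1 < 1 * g β 1 := mul_lt_mul_of_pos_right (by linarith) h1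
    linarith

theorem g_zero_left (x : ℝ) : g 0 x = x := by simp [g]

theorem U_spec (β : ℝ) {x y : ℝ} (hx : x ∈ Icc (0 : ℝ) 1) (hy : y ∈ Icc (0 : ℝ) 1) :
    UU β x y ∈ Icc (0 : ℝ) 1 ∧ g β (UU β x y) = g β x * g β y / g β 1 := by
  have h1 := g_one_pos β
  have h2 := g_nonneg β hx.1
  have h3 := g_nonneg β hy.1
  have h4 := g_le β hy.2
  have h4' := g_le β hx.2
  have key : g β (UU β x y) = g β x * g β y / g β 1 := by
    unfold UU
    split_ifs with hb
    · subst hb
      simp [g_zero_left]
    · have hD := D_pos β hx hy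
      have h5 : 0 < 1 - β * (g β x * g β y / g β 1) := by
        have : 1 - β * (g β x * g β y / g β 1) = (g β 1 - β * g β x * g β y) / g β 1 := by
          field_simp
        rw [this]
        exact div_pos hD h1
      have h6 := g_id β (-(Real.log (1 - β * (g β x * g β y / g β 1))) / β)
      have h7 : -β * (-(Real.log (1 - β * (g β x * g β y / g β 1))) / β) =
          Real.log (1 - β * (g β x * g β y / g β 1)) := by
        field_simp
      rw [h7, Real.exp_log h5] at h6
      have h8 : β * g β (-(Real.log (1 - β * (g β x * g β y / g β 1))) / β) =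
          β * (g β x * g β y / g β 1) := by linarith
      exact mul_left_cancel₀ hb h8
  refine ⟨⟨?_, ?_⟩, key⟩
  · have h5 : g β 0 ≤ g β (UU β x y) := by
      rw [key, g_zero]
      positivity
    exact (g_strictMono β).le_iff_le.1 h5
  · have h5 : g β (UU β x y) ≤ g β 1 := by
      rw [key, div_le_iff₀ h1]
      exact mul_le_mul h4' h4 h3 h1.le
    exact (g_strictMono β).le_iff_le.1 h5

theorem dens_contOn (β : ℝ) :
    ContinuousOn (fun z : ℝ × ℝ => dens β z.1 z.2) (Icc 0 1 ×ˢ Icc 0 1) := by
  have hg := g_cont β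
  unfold dens
  refine ContinuousOn.div ?_ ?_ ?_
  · fun_prop
  · refine Continuous.continuousOn ?_
    exact (continuous_const.sub ((continuous_const.mul (hg.comp continuous_fst)).mul
      (hg.comp continuous_snd))).pow 2
  · rintro ⟨x, y⟩ ⟨hx, hy⟩
    exact pow_ne_zero 2 (D_pos β hx hy).ne'

theorem V_deriv (β : ℝ) {s t : ℝ} (hs : s ∈ Icc (0 : ℝ) 1) (ht : t ∈ Icc (0 : ℝ) 1) :
    HasDerivAt (fun t => Real.exp (-β * s) * g β t / (g β 1 - β * g β s * g β t))
      (dens β s t) t := by
  have hD := D_pos β hs ht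
  have h1 := ((g_deriv β t).const_mul (Real.exp (-β * s))).div
    (((g_deriv β t).const_mul (β * g β s)).const_sub (g β 1)) hD.ne'
  refine h1.congr_deriv ?_
  unfold dens
  have h2 : Real.exp (-β * (s + t)) = Real.exp (-β * s) * Real.exp (-β * t) := by
    rw [← Real.exp_add]
    ring_nf
  rw [h2]
  congr 1
  ring

theorem U_deriv (β : ℝ) {s y : ℝ} (hs : s ∈ Icc (0 : ℝ) 1) (hy : y ∈ Icc (0 : ℝ) 1) :
    HasDerivAt (fun s => UU β s y)
      (Real.exp (-β * s) * g β y / (g β 1 - β * g β s * g β y)) s := by
  have hD := D_pos β hs hy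
  have h1 := g_one_pos β
  by_cases hb : β = 0
  · subst hb
    simp only [UU, if_true, g_zero_left, neg_zero, zero_mul, Real.exp_zero, sub_zero, one_mul,
      div_one]
    exact (hasDerivAt_id s).mul_const y |>.congr_deriv (by simp)
  · have h5 : 0 < 1 - β * (g β s * g β y / g β 1) := by
      have : 1 - β * (g β s * g β y / g β 1) = (g β 1 - β * g β s * g β y) / g β 1 := by
        field_simp
      rw [this]
      exact div_pos hD h1
    have h6 : HasDerivAt (fun s => 1 - β * (g β s * g β y / g β 1))
        (-(β * (Real.exp (-β * s) * g β y / g β 1))) s :=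
      ((((g_deriv β s).mul_const (g β y)).div_const (g β 1)).const_mul β).const_sub 1
    have h7 := ((h6.log h5.ne').neg).div_const β
    have h8 : (fun s => UU β s y) = fun s => -(Real.log (1 - β * (g β s * g β y / g β 1))) / β := by
      funext s
      simp only [UU, if_neg hb]
    rw [h8]
    refine h7.congr_deriv ?_
    have h9 : 1 - β * (g β s * g β y / g β 1) = (g β 1 - β * g β s * g β y) / g β 1 := by
      field_simp
    rw [h9]
    have h10 := hD.ne'
    field_simp

theorem t_GU : S_GU := by
  intro β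
  refine ⟨g_cont β, g_zero β, g_one_pos β, fun x y => g_inc β x y, fun x hx y hy =>
    ⟨(U_spec β hx hy).1, (U_spec β hx hy).2, D_pos β hx hy⟩, dens_contOn β, fun x hx y hy => ?_,
    ?_, ?_⟩
  · unfold dens
    exact div_pos (mul_pos (g_one_pos β) (Real.exp_pos _)) (pow_pos (D_pos β hx hy) 2)
  · have h1 := (g_one_pos β).ne'
    have h2 : ∀ y, dens β 0 y = Real.exp (-β * y) / g β 1 := by
      intro y
      unfold dens
      rw [g_zero]
      simp only [zero_add, mul_zero, zero_mul, sub_zero]
      field_simp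
    simp only [h2]
    rw [intervalIntegral.integral_div]
    change g β 1 / g β 1 = 1
    exact div_self h1
  · intro x x' y y' hx hxx hx' hy hyy hy'
    have hI : ∀ s ∈ uIcc x x', s ∈ Icc (0 : ℝ) 1 := by
      intro s hs
      rw [uIcc_of_le hxx] at hs
      exact ⟨hx.trans hs.1, hs.2.trans hx'⟩
    have hJ : ∀ t ∈ uIcc y y', t ∈ Icc (0 : ℝ) 1 := by
      intro s hs
      rw [uIcc_of_le hyy] at hs
      exact ⟨hy.trans hs.1, hs.2.trans hy'⟩
    have h1 : ∀ s ∈ uIcc x x', ∫ t in y..y', dens β s t =
        Real.exp (-β * s) * g β y' / (g β 1 - β * g β s * g β y') -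
          Real.exp (-β * s) * g β y / (g β 1 - β * g β s * g β y) := by
      intro s hs
      refine intervalIntegral.integral_eq_sub_of_hasDerivAt
        (f := fun t => Real.exp (-β * s) * g β t / (g β 1 - β * g β s * g β t))
        (fun t ht => V_deriv β (hI s hs) (hJ t ht)) ?_
      refine ContinuousOn.intervalIntegrable ?_
      exact (dens_contOn β).comp (Continuous.prodMk_right s).continuousOn
        fun t ht => ⟨hI s hs, hJ t ht⟩
    have h2 : ∀ z ∈ Icc (0 : ℝ) 1, IntervalIntegrable
        (fun s => Real.exp (-β * s) * g β z / (g β 1 - β * g β s * g β z)) volume x x' := by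
      intro z hz
      refine ContinuousOn.intervalIntegrable ?_
      have hg := g_cont β
      refine ContinuousOn.div (by fun_prop) (by fun_prop) fun s hs => (D_pos β (hI s hs) hz).ne'
    have h3 : ∀ z ∈ Icc (0 : ℝ) 1,
        ∫ s in x..x', Real.exp (-β * s) * g β z / (g β 1 - β * g β s * g β z) =
          UU β x' z - UU β x z := fun z hz =>
      intervalIntegral.integral_eq_sub_of_hasDerivAt (f := fun s => UU β s z)
        (fun s hs => U_deriv β (hI s hs) hz) (h2 z hz)
    have hy0 : y ∈ Icc (0 : ℝ) 1 := ⟨hy, hyy.trans hy'⟩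
    have hy1 : y' ∈ Icc (0 : ℝ) 1 := ⟨hy.trans hyy, hy'⟩
    rw [intervalIntegral.integral_congr h1, intervalIntegral.integral_sub (h2 y' hy1) (h2 y hy0),
      h3 y' hy1, h3 y hy0]
    ring

end Pool.Agent.K3h49.FF
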