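import Pool.Agent.K3h5.FF.Stm

/-! Brick MOM of project FF (helper5): `q`-factorial moments of the Mallows permutations. -/

set_option autoImplicit false

open MeasureTheory Filter Topology ProbabilityTheory Set

namespace Pool.Agent.K3h49.FF

open Pool.Agent.K3h5.FF

theorem qn_zero (q : ℝ) : qn q 0 = 0 := by simp [qn]

theorem qn_add (q : ℝ) (j k : ℕ) : qn q (j + k) = qn q j + q ^ j * qn q k := by
  unfold qn
  rw [Finset.sum_range_add, Finset.mul_sum]
  congr 1
  exact Finset.sum_congr rfl fun i _ => by rw [pow_add]

theorem qn_pos {q : ℝ} (hq : 0 < q) {k : ℕ} (hk : 0 < k) : 0 < qn q k := by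
  unfold qn
  exact Finset.sum_pos (fun i _ => pow_pos hq i) ⟨0, by simpa using hk⟩

/-- the partition function -/
noncomputable def ZZ (q : ℝ) (n : ℕ) : ℝ := ∑ π : Equiv.Perm (Fin n), q ^ inv π

/-- the first moment -/
noncomputable def AA (q : ℝ) (n t m : ℕ) : ℝ :=
  ∑ π : Equiv.Perm (Fin n), q ^ inv π * (q ^ Fc t m π * qn q (m - Fc t m π))

/-- the second moment -/
noncomputable def BB (q : ℝ) (n t m : ℕ) : ℝ :=
  ∑ π : Equiv.Perm (Fin n),
    q ^ inv π * (q ^ (2 * Fc t m π) * (qn q (m - Fc t m π) * qn q (m - Fc t m π - 1)))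

theorem split_sum (q : ℝ) (n m : ℕ) (hm : m ≤ n + 1) (X Y : ℝ) :
    ∑ a : Fin (n + 1), (if a.val < m then q ^ a.val * X else q ^ a.val * Y) =
      qn q m * X + q ^ m * qn q (n + 1 - m) * Y := by
  rw [Fin.sum_univ_eq_sum_range (fun a => if a < m then q ^ a * X else q ^ a * Y) (n + 1),
    ← Finset.sum_range_add_sum_Ico _ hm]
  congr 1
  · unfold qn
    rw [Finset.sum_mul]
    refine Finset.sum_congr rfl fun a ha => ?_
    rw [if_pos (Finset.mem_range.1 ha)]
  · rw [Finset.sum_Ico_eq_sum_range]
    unfold qn
    rw [Finset.mul_sum, Finset.sum_mul]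
    refine Finset.sum_congr rfl fun a _ => ?_
    rw [if_neg (by omega), pow_add]

theorem Z_succ (h : S_DEC) (q : ℝ) (n : ℕ) : ZZ q (n + 1) = qn q (n + 1) * ZZ q n := by
  obtain ⟨e, he⟩ := h n
  unfold ZZ
  rw [← Equiv.sum_comp e, Fintype.sum_prod_type]
  have h1 : ∀ a : Fin (n + 1), ∑ σ : Equiv.Perm (Fin n), q ^ inv (e (a, σ)) =
      if a.val < n + 1 then q ^ a.val * ∑ σ : Equiv.Perm (Fin n), q ^ inv σ else
        q ^ a.val * 0 := by
    intro a
    rw [if_pos a.2, Finset.mul_sum]
    refine Finset.sum_congr rfl fun σ _ => ?_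
    rw [(he a σ).2.2.1, pow_add]
  rw [Finset.sum_congr rfl fun a _ => h1 a, split_sum q n (n + 1) le_rfl]
  ring

theorem A_succ (h : S_DEC) (q : ℝ) (n t m : ℕ) (hm : m ≤ n + 1) :
    AA q (n + 1) (t + 1) m =
      qn q m * (q * AA q n t (m - 1)) + q ^ m * qn q (n + 1 - m) * AA q n t m := by
  obtain ⟨e, he⟩ := h n
  rw [← split_sum q n m hm, AA, ← Equiv.sum_comp e, Fintype.sum_prod_type]
  refine Finset.sum_congr rfl fun a _ => ?_
  split_ifs with ha
  · unfold AA
    rw [Finset.mul_sum, Finset.mul_sum]
    refine Finset.sum_congr rfl fun σ _ => ?_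
    rw [(he a σ).2.2.1, (he a σ).2.2.2, if_pos ha]
    have h1 : m - (1 + Fc t (m - 1) σ) = m - 1 - Fc t (m - 1) σ := by omega
    rw [h1, pow_add, pow_add, pow_one]
    ring
  · unfold AA
    rw [Finset.mul_sum]
    refine Finset.sum_congr rfl fun σ _ => ?_
    rw [(he a σ).2.2.1, (he a σ).2.2.2, if_neg ha, pow_add]
    ring

theorem B_succ (h : S_DEC) (q : ℝ) (n t m : ℕ) (hm : m ≤ n + 1) :
    BB q (n + 1) (t + 1) m =
      qn q m * (q ^ 2 * BB q n t (m - 1)) + q ^ m * qn q (n + 1 - m) * BB q n t m := by
  obtain ⟨e, he⟩ := h n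
  rw [← split_sum q n m hm, BB, ← Equiv.sum_comp e, Fintype.sum_prod_type]
  refine Finset.sum_congr rfl fun a _ => ?_
  split_ifs with ha
  · unfold BB
    rw [Finset.mul_sum, Finset.mul_sum]
    refine Finset.sum_congr rfl fun σ _ => ?_
    rw [(he a σ).2.2.1, (he a σ).2.2.2, if_pos ha]
    have h1 : m - (1 + Fc t (m - 1) σ) = m - 1 - Fc t (m - 1) σ := by omega
    have h2 : 2 * (1 + Fc t (m - 1) σ) = 2 + 2 * Fc t (m - 1) σ := by ring
    rw [h1, h2, pow_add, pow_add]
    ring
  · unfold BB
    rw [Finset.mul_sum]
    refine Finset.sum_congr rfl fun σ _ => ?_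
    rw [(he a σ).2.2.1, (he a σ).2.2.2, if_neg ha, pow_add]
    ring

theorem Fc_zero {n : ℕ} (m : ℕ) (π : Equiv.Perm (Fin n)) : Fc 0 m π = 0 := by
  simp [Fc]

theorem Fc_le {n : ℕ} (t m : ℕ) (π : Equiv.Perm (Fin n)) : Fc t m π ≤ m := by
  unfold Fc
  calc _ ≤ (Finset.range m).card := by
        refine Finset.card_le_card_of_injOn (fun i => (π i).val) ?_ ?_
        · intro i hi
          simp only [Finset.coe_filter, Finset.mem_univ, true_and, Set.mem_setOf_eq] at hi
          simpa using hi.2
        · intro i _ j _ hij
          exact π.injective (Fin.ext hij)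
    _ = m := Finset.card_range m

theorem A_zero (q : ℝ) (n m : ℕ) : AA q n 0 m = ZZ q n * qn q m := by
  unfold AA ZZ
  rw [Finset.sum_mul]
  refine Finset.sum_congr rfl fun π _ => ?_
  rw [Fc_zero]
  simp

theorem B_zero (q : ℝ) (n m : ℕ) : BB q n 0 m = ZZ q n * (qn q m * qn q (m - 1)) := by
  unfold BB ZZ
  rw [Finset.sum_mul]
  refine Finset.sum_congr rfl fun π _ => ?_
  rw [Fc_zero]
  simp

theorem B_le_one (q : ℝ) (n t m : ℕ) (hm : m ≤ 1) : BB q n t m = 0 := by
  unfold BB
  refine Finset.sum_eq_zero fun π _ => ?_
  have : m - Fc t m π - 1 = 0 := by omega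
  rw [this, qn_zero]
  ring

theorem main_A (h : S_DEC) {q : ℝ} (hq : 0 < q) (n : ℕ) : ∀ t m : ℕ, t ≤ n → m ≤ n →
    qn q n * AA q n t m = ZZ q n * (qn q m * q ^ t * qn q (n - t)) := by
  induction n with
  | zero =>
    intro t m ht hm
    obtain rfl : m = 0 := by omega
    rw [qn_zero]
    ring
  | succ n ih =>
    intro t m ht hm
    cases t with
    | zero =>
      rw [A_zero]
      simp only [pow_zero, Nat.sub_zero]
      ring
    | succ t =>
      have ht' : t ≤ n := by omega
      have e1 : n + 1 - (t + 1) = n - t := by omega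
      rw [Z_succ h, A_succ h q n t m hm, e1]
      have key : qn q m * (q * AA q n t (m - 1)) + q ^ m * qn q (n + 1 - m) * AA q n t m =
          ZZ q n * (qn q m * q ^ (t + 1) * qn q (n - t)) := by
        rcases Nat.eq_zero_or_pos n with rfl | hn
        · obtain rfl : t = 0 := by omega
          rw [A_zero, A_zero]
          obtain rfl | rfl : m = 0 ∨ m = 1 := by omega
          · simp [qn_zero]
          · simp [qn_zero]
        · have hnn := qn_pos hq hn
          rcases Nat.eq_zero_or_pos m with rfl | hm0
          · have h1 := ih t 0 ht' (Nat.zero_le _)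
            rw [qn_zero] at h1 ⊢
            have h2 : AA q n t 0 = 0 := by
              have h3 : qn q n * AA q n t 0 = 0 := by
                rw [h1]
                ring
              exact (mul_eq_zero.1 h3).resolve_left hnn.ne'
            rw [h2]
            ring
          · refine mul_left_cancel₀ hnn.ne' ?_
            have h1 := ih t (m - 1) ht' (by omega)
            have h2 : qn q (n + 1 - m) * (qn q n * AA q n t m) =
                qn q (n + 1 - m) * (ZZ q n * (qn q m * q ^ t * qn q (n - t))) := by
              rcases Nat.lt_or_ge n m with hlt | hge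
              · have : n + 1 - m = 0 := by omega
                rw [this, qn_zero]
                ring
              · rw [ih t m ht' hge]
            have h3 : qn q n = qn q (m - 1) + q ^ (m - 1) * qn q (n + 1 - m) := by
              rw [← qn_add]
              congr 1
              omega
            have h4 : q ^ m = q * q ^ (m - 1) := by
              rw [← pow_succ']
              congr 1
              omega
            have h5 : qn q n * (qn q m * (q * AA q n t (m - 1)) +
                q ^ m * qn q (n + 1 - m) * AA q n t m) =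
                qn q m * q * (qn q n * AA q n t (m - 1)) +
                  q ^ m * (qn q (n + 1 - m) * (qn q n * AA q n t m)) := by ring
            rw [h5, h1, h2, h4, pow_succ]
            have h6 : qn q n * (ZZ q n * (qn q m * (q ^ t * q) * qn q (n - t))) =
                (qn q (m - 1) + q ^ (m - 1) * qn q (n + 1 - m)) *
                  (ZZ q n * (qn q m * (q ^ t * q) * qn q (n - t))) := by rw [← h3]
            rw [h6]
            ring
      rw [key]
      ring

theorem main_B (h : S_DEC) {q : ℝ} (hq : 0 < q) (n : ℕ) : ∀ t m : ℕ, t ≤ n → m ≤ n →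
    qn q n * qn q (n - 1) * BB q n t m =
      ZZ q n * (qn q m * qn q (m - 1) * q ^ (2 * t) * (qn q (n - t) * qn q (n - t - 1))) := by
  induction n with
  | zero =>
    intro t m ht hm
    obtain rfl : m = 0 := by omega
    rw [qn_zero]
    ring
  | succ n ih =>
    intro t m ht hm
    cases t with
    | zero =>
      rw [B_zero]
      simp only [mul_zero, pow_zero, Nat.sub_zero]
      ring
    | succ t =>
      have ht' : t ≤ n := by omega
      have e1 : n + 1 - (t + 1) = n - t := by omega
      have e2 : n + 1 - 1 = n := by omega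
      rw [Z_succ h, B_succ h q n t m hm, e1, e2]
      have key : qn q n * (qn q m * (q ^ 2 * BB q n t (m - 1)) +
          q ^ m * qn q (n + 1 - m) * BB q n t m) =
          ZZ q n * (qn q m * qn q (m - 1) * q ^ (2 * (t + 1)) *
            (qn q (n - t) * qn q (n - t - 1))) := by
        rcases Nat.lt_or_ge n 2 with hn | hn
        · have h1 : n - t - 1 = 0 := by omega
          rw [h1, qn_zero]
          obtain rfl | rfl : n = 0 ∨ n = 1 := by omega
          · rw [qn_zero]
            ring
          · rw [B_le_one q 1 t (m - 1) (by omega)]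
            rcases Nat.lt_or_ge 1 m with h2 | h2
            · have : 1 + 1 - m = 0 := by omega
              rw [this, qn_zero]
              ring
            · rw [B_le_one q 1 t m h2]
              ring
        · have hnn := qn_pos hq (show 0 < n - 1 by omega)
          rcases Nat.lt_or_ge m 2 with hm2 | hm2
          · have h1 : qn q m * qn q (m - 1) = 0 := by
              have : m - 1 = 0 := by omega
              rw [this, qn_zero]
              ring
            rw [B_le_one q n t (m - 1) (by omega), B_le_one q n t m (by omega), h1]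
            ring
          · refine mul_left_cancel₀ hnn.ne' ?_
            have h1 := ih t (m - 1) ht' (by omega)
            have e3 : m - 1 - 1 = m - 2 := by omega
            rw [e3] at h1
            have h2 : qn q (n + 1 - m) * (qn q n * qn q (n - 1) * BB q n t m) =
                qn q (n + 1 - m) * (ZZ q n * (qn q m * qn q (m - 1) * q ^ (2 * t) *
                  (qn q (n - t) * qn q (n - t - 1)))) := by
              rcases Nat.lt_or_ge n m with hlt | hge
              · have : n + 1 - m = 0 := by omega
                rw [this, qn_zero]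
                ring
              · rw [ih t m ht' hge]
            have h3 : qn q (n - 1) = qn q (m - 2) + q ^ (m - 2) * qn q (n + 1 - m) := by
              rw [← qn_add]
              congr 1
              omega
            have h4 : q ^ m = q ^ 2 * q ^ (m - 2) := by
              rw [← pow_add]
              congr 1
              omega
            have h5 : qn q (n - 1) * (qn q n * (qn q m * (q ^ 2 * BB q n t (m - 1)) +
                q ^ m * qn q (n + 1 - m) * BB q n t m)) =
                qn q m * q ^ 2 * (qn q n * qn q (n - 1) * BB q n t (m - 1)) +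
                  q ^ m * (qn q (n + 1 - m) * (qn q n * qn q (n - 1) * BB q n t m)) := by ring
            have h7 : q ^ (2 * (t + 1)) = q ^ (2 * t) * q ^ 2 := by
              rw [← pow_add]
              congr 1
            rw [h5, h1, h2, h4, h7]
            generalize qn q (n - t - 1) = x1
            generalize qn q (n - t) = x2
            rw [h3]
            ring
      have h8 : qn q (n + 1) * qn q n * (qn q m * (q ^ 2 * BB q n t (m - 1)) +
          q ^ m * qn q (n + 1 - m) * BB q n t m) =
          qn q (n + 1) * (qn q n * (qn q m * (q ^ 2 * BB q n t (m - 1)) +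
          q ^ m * qn q (n + 1 - m) * BB q n t m)) := by ring
      rw [h8, key]
      ring

theorem t_MOM : S_DEC → S_MOM := by
  intro h q hq n t m ht hm
  exact ⟨Fc_le t m, main_A h hq n t m ht hm, main_B h hq n t m ht hm⟩

end Pool.Agent.K3h49.FF
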